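import Pool.Agent.Helper7.LEF.Main
import Pool.Agent.WPP.TypesZ
import Pool.Agent.Helper39.AF.Mor

/-!
Grothendieck classes on abelian varieties all of whose simple factors have real multiplication of
relative dimension one or two or complex multiplication or are generic surfaces are killed by the
derived algebra of the Lefschetz Lie algebra.
-/

namespace Pool.Agent.GPC

/-- `Z` is the centre of `End(X) ⊗ ℚ`. -/
def AbVar.IsCentreAlg (X : AbVar) (Z : Subalgebra ℚ (Module.End ℂ X.H1)) : Prop :=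
  ∀ z : Module.End ℂ X.H1, z ∈ Z ↔
    X.IsEnd z ∧ ∀ h : X.H1 → X.H1, X.IsEnd h → ∀ v, h (z v) = z (h v)

end Pool.Agent.GPC

namespace Pool.Agent.Helper7.LEF

open Module NumberField Pool.Agent.GPC Pool.Agent.Helper7 Pool.Agent.Helper39.AF
open Pool.Agent.Helper8.T1 Pool.Agent.Helper26.GPC Pool.Agent.KT.Alg Pool.Agent.Helper7.HU

section chi

variable {κ : Type} [Fintype κ] [DecidableEq κ] {ϖ : ℂ} {P : PData κ ϖ} {K : Type} [Field K]
    [NumberField K]

/-- the coordinate of the eigenvector -/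
private lemma cv_ev (F : FS P K) (hF : ¬ F.isLeft) (σ : K →+* ℂ) : F.cv σ (F.ev σ) = 1 := by
  classical
  cases F with
  | inl F => exact absurd rfl hF
  | inr F =>
    show F.1.lf.co σ 0 (F.1.e σ 0) = 1
    rw [F.1.co_e σ 0 σ 0 (Or.inr rfl), if_pos ⟨rfl, rfl⟩]

/-- an operator of trace zero on every eigenline has the weights zero -/
private theorem chi_zero (F : FS P K) (hF : ¬ F.isLeft) (f : Module.End ℂ (κ → ℂ))
    (hf : ∀ x v, f (F.ρ x v) = F.ρ x (f v))
    (htr : ∀ x, LinearMap.trace ℂ (κ → ℂ) (f * F.ρ x) = 0) (σ : K →+* ℂ) :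
    F.chi σ f 0 = 0 := by
  have h1 : LinearMap.trace ℂ (κ → ℂ) (f * proj F.ρ σ) = 0 := by
    unfold proj
    rw [Finset.mul_sum, map_sum]
    refine Finset.sum_eq_zero fun b _ => ?_
    rw [mul_smul_comm, map_smul, htr, smul_zero]
  have h2 : f * proj F.ρ σ = (F.cv σ).smulRight (F.chi σ f 0 • F.ev σ) := by
    refine LinearMap.ext fun v => ?_
    rw [Module.End.mul_apply, F.proj_cm hF, map_smul, F.ev_act hF σ f 0 hf,
      LinearMap.smulRight_apply]
  rw [h2, LinearMap.trace_smulRight] at h1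
  rw [map_smul, cv_ev F hF, smul_eq_mul, mul_one] at h1
  exact h1

end chi

section family

variable {I : Type} [Fintype I] [DecidableEq I] (A : I → AbVar) (n : I → ℕ) (K : I → Type)
  [∀ i, Field (K i)] [∀ i, NumberField (K i)] (F : ∀ i, FS (pData (A i)) (K i))
  {k : ℕ} (α : Form A n (2 * k))

/-- a symmetry with the weights zero kills the form -/
private theorem kill (hact : ActLab A n K F k α) (H : GG (fun i => Fin (A i).g ⊕ Fin (A i).g))
    (hH : IsMT (fun i => pData (A i)) H)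
    (hchi : ∀ t : Emb K, chiC (fun i => pData (A i)) F t H = 0)
    (v : Fin (2 * k) → H1 A n) :
    ∑ r, α (Function.update v r (lift n H.1 (v r))) = 0 := by
  classical
  have h2 : ∀ u : Fin (2 * k) → HW (fun i => Fin (A i).g ⊕ Fin (A i).g) n,
      α u = ∑ b : Fin (2 * k) → At n K,
        α (fun r => EE n (fun i => pData (A i)) F (b r) (u r)) := fun u =>
    Pool.Agent.Helper8.sum_labels α u
  have h3 : ∀ r, α (Function.update v r (lift n H.1 (v r))) =
      ∑ b : Fin (2 * k) → At n K,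
        α (Function.update (fun s => EE n (fun i => pData (A i)) F (b s) (v s)) r
          (lift n H.1 (EE n (fun i => pData (A i)) F (b r) (v r)))) := by
    intro r
    rw [h2]
    refine Finset.sum_congr rfl fun b _ => ?_
    congr 1
    funext s
    by_cases hs : s = r
    · subst hs
      rw [Function.update_self, Function.update_self, EE_comm n (fun i => pData (A i)) F H hH]
    · rw [Function.update_of_ne hs, Function.update_of_ne hs]
  rw [Finset.sum_congr rfl fun r _ => h3 r, Finset.sum_comm]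
  refine Finset.sum_eq_zero fun b _ => ?_
  rw [hact H hH b v _ rfl, Finset.sum_eq_zero fun r _ => hchi _, zero_mul]

end family

section

variable {X : AbVar} {I : Type} [Fintype I] [DecidableEq I] {A : I → AbVar}
  {n : I → ℕ} {Φ : X.H1 ≃ₗ[ℂ] H1 A n}

/-- the inclusion of a factor -/
private noncomputable def sl (Φ : X.H1 ≃ₗ[ℂ] H1 A n) (i : I) (m : Fin (n i)) :
    (A i).H1 →ₗ[ℂ] X.H1 :=
    Φ.symm.toLinearMap ∘ₗ slotL (κ := fun i => Fin (A i).g ⊕ Fin (A i).g) n i m

/-- the projection to a factor -/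
private noncomputable def pr (Φ : X.H1 ≃ₗ[ℂ] H1 A n) (i : I) (m : Fin (n i)) :
    X.H1 →ₗ[ℂ] (A i).H1 := prL n i m ∘ₗ Φ.toLinearMap

private lemma pr_apply (i : I) (m : Fin (n i)) (v : X.H1) : pr Φ i m v = Φ v i m := rfl

private lemma sl_apply (i : I) (m : Fin (n i)) (u : (A i).H1) :
    sl Φ i m u =
      Φ.symm (slotL (κ := fun i => Fin (A i).g ⊕ Fin (A i).g) n i m u) := rfl

/-- the entries of a slot -/
private lemma slot_entry (i : I) (m : Fin (n i)) (u : (A i).H1)
    (p : ∀ j, (A j).H1 → Prop) (h0 : ∀ j, p j 0) (h : p i u) (j : I) (m' : Fin (n j)) :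
    p j (slotL (κ := fun i => Fin (A i).g ⊕ Fin (A i).g) n i m u j m') := by
  by_cases hj : j = i
  · subst hj
    by_cases hm : m' = m
    · subst hm
      have h1 := prL_slotL (κ := fun i => Fin (A i).g ⊕ Fin (A i).g) n j m' u
      change slotL (κ := fun i => Fin (A i).g ⊕ Fin (A i).g) n j m' u j m' = u at h1
      rw [h1]
      exact h
    · have h1 := prL_slotL_ne (κ := fun i => Fin (A i).g ⊕ Fin (A i).g) n j m m' hm u
      change slotL (κ := fun i => Fin (A i).g ⊕ Fin (A i).g) n j m u j m' = 0 at h1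
      rw [h1]
      exact h0 j
  · have h1 := prL_slotL_ne' (κ := fun i => Fin (A i).g ⊕ Fin (A i).g) n i j m m' hj u
    change slotL (κ := fun i => Fin (A i).g ⊕ Fin (A i).g) n i m u j m' = 0 at h1
    rw [h1]
    exact h0 j

private lemma sl_mor (hΦ : IsIsogeny X A n Φ) (i : I) (m : Fin (n i)) :
    (A i).IsMor X (sl Φ i m) := by
  refine ⟨(sl Φ i m).isLinear, fun v hv => ?_, fun v hv => ?_, fun v hv => ?_⟩
  · rw [sl_apply, hΦ.betti, Φ.apply_symm_apply]
    exact fun j m' => slot_entry i m v (fun j w => (A j).IsBetti w)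
      (fun j => by
        rw [isBetti_iff]
        exact Submodule.zero_mem _) hv j m'
  · rw [sl_apply, hΦ.deRham, Φ.apply_symm_apply]
    exact fun j m' => slot_entry i m v (fun j w => (A j).IsDeRham w)
      (fun j _ => isAlgebraic_zero) hv j m'
  · rw [sl_apply, hΦ.fil, Φ.apply_symm_apply]
    exact fun j m' => slot_entry i m v (fun j w => (A j).IsFil w)
      (fun j _ => rfl) hv j m'

private lemma pr_mor (hΦ : IsIsogeny X A n Φ) (i : I) (m : Fin (n i)) :
    X.IsMor (A i) (pr Φ i m) :=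
  ⟨(pr Φ i m).isLinear, fun v hv => (hΦ.betti v).mp hv i m,
    fun v hv => (hΦ.deRham v).mp hv i m, fun v hv => (hΦ.fil v).mp hv i m⟩

private lemma pr_sl (i : I) (m : Fin (n i)) (u : (A i).H1) : pr Φ i m (sl Φ i m u) = u := by
  rw [pr_apply, sl_apply, Φ.apply_symm_apply]
  exact prL_slotL (κ := fun i => Fin (A i).g ⊕ Fin (A i).g) n i m u

private lemma pr_sl_ne (i : I) (m m' : Fin (n i)) (hm : m' ≠ m) (u : (A i).H1) :
    pr Φ i m' (sl Φ i m u) = 0 := by
  rw [pr_apply, sl_apply, Φ.apply_symm_apply]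
  exact prL_slotL_ne (κ := fun i => Fin (A i).g ⊕ Fin (A i).g) n i m m' hm u

private lemma pr_sl_ne' (i j : I) (m : Fin (n i)) (m' : Fin (n j)) (hij : j ≠ i)
    (u : (A i).H1) : pr Φ j m' (sl Φ i m u) = 0 := by
  rw [pr_apply, sl_apply, Φ.apply_symm_apply]
  exact prL_slotL_ne' (κ := fun i => Fin (A i).g ⊕ Fin (A i).g) n i j m m' hij u

private lemma sum_sl (v : X.H1) : ∑ i, ∑ m, sl Φ i m (pr Φ i m v) = v := by
  have h1 := congrArg Φ.symm (sum_slot (κ := fun i => Fin (A i).g ⊕ Fin (A i).g) n (Φ v))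
  rw [Φ.symm_apply_apply, map_sum] at h1
  conv_rhs => rw [← h1]
  refine Finset.sum_congr rfl fun i _ => ?_
  rw [map_sum]
  rfl

/-- two linear maps from `X` which agree on the factors are equal -/
private lemma ext_sl {V : Type} [AddCommGroup V] [Module ℂ V] (a b : X.H1 →ₗ[ℂ] V)
    (h : ∀ i m u, a (sl Φ i m u) = b (sl Φ i m u)) (v : X.H1) : a v = b v := by
  rw [← sum_sl (Φ := Φ) v, map_sum, map_sum]
  refine Finset.sum_congr rfl fun i _ => ?_
  rw [map_sum, map_sum]
  exact Finset.sum_congr rfl fun m _ => h i m _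

/-- the components of an operator which commutes with all endomorphisms -/
private theorem comps (hΦ : IsIsogeny X A n Φ) (hn : ∀ i, n i ≠ 0) (f : X.H1 →ₗ[ℂ] X.H1)
    (hf : ∀ h, X.IsEnd h → ∀ v, f (h v) = h (f v)) :
    ∃ F : ∀ i, Module.End ℂ (A i).H1,
      (∀ i (g : (A i).H1 → X.H1), (A i).IsMor X g → ∀ u, f (g u) = g (F i u)) ∧
      (∀ i h, (A i).IsEnd h → ∀ u, F i (h u) = h (F i u)) := by
  have hpos : ∀ i, 0 < n i := fun i => Nat.pos_of_ne_zero (hn i)
  let m0 : ∀ i, Fin (n i) := fun i => ⟨0, hpos i⟩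
  have h1 : ∀ i (g : (A i).H1 → X.H1), (A i).IsMor X g → ∀ u,
      f (g u) = g ((pr Φ i (m0 i) ∘ₗ f ∘ₗ sl Φ i (m0 i)) u) := by
    intro i g hg u
    have h2 := hf (fun v => g (pr Φ i (m0 i) v))
      ((isEnd_iff _ _).mpr (isMor_comp hg (pr_mor hΦ i (m0 i)))) (sl Φ i (m0 i) u)
    beta_reduce at h2
    rw [pr_sl] at h2
    exact h2
  refine ⟨fun i => pr Φ i (m0 i) ∘ₗ f ∘ₗ sl Φ i (m0 i), h1, fun i h hh u => ?_⟩
  have h3 := h1 i (fun u => sl Φ i (m0 i) (h u))
    (isMor_comp (sl_mor hΦ i (m0 i)) ((isEnd_iff _ _).mp hh)) u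
  have h4 := h1 i (sl Φ i (m0 i)) (sl_mor hΦ i (m0 i)) (h u)
  beta_reduce at h3
  have h5 := congrArg (pr Φ i (m0 i)) (h4.symm.trans h3)
  rw [pr_sl, pr_sl] at h5
  exact h5

/-- the operator is the lift of its components -/
private theorem eq_lift (hΦ : IsIsogeny X A n Φ) (f : X.H1 →ₗ[ℂ] X.H1)
    (F : ∀ i, Module.End ℂ (A i).H1)
    (hF : ∀ i (g : (A i).H1 → X.H1), (A i).IsMor X g → ∀ u, f (g u) = g (F i u))
    (v : X.H1) : f v = Φ.symm (lift n F (Φ v)) := by
  refine ext_sl (Φ := Φ) f (Φ.symm.toLinearMap ∘ₗ lift n F ∘ₗ Φ.toLinearMap) (fun i m u => ?_) v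
  rw [hF i _ (sl_mor hΦ i m) u]
  rw [sl_apply, sl_apply, LinearMap.comp_apply, LinearMap.comp_apply, LinearEquiv.coe_coe,
    LinearEquiv.coe_coe, Φ.apply_symm_apply, lift_slot]

/-- the trace against a central endomorphism of a factor -/
private theorem tr_zero (hΦ : IsIsogeny X A n Φ) (hn : ∀ i, n i ≠ 0)
    (hA : ∀ i j, i ≠ j → ∀ f, (A i).IsMor (A j) f → ∀ v, f v = 0) (f : X.H1 →ₗ[ℂ] X.H1)
    (F : ∀ i, Module.End ℂ (A i).H1)
    (hF : ∀ i (g : (A i).H1 → X.H1), (A i).IsMor X g → ∀ u, f (g u) = g (F i u))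
    {Z : Subalgebra ℚ (Module.End ℂ X.H1)} (hZ : X.IsCentreAlg Z)
    (htr : ∀ z ∈ Z, LinearMap.trace ℂ X.H1 (f * z) = 0) (i : I) (e : Module.End ℂ (A i).H1)
    (he : (A i).IsEnd e) (hc : ∀ h, (A i).IsEnd h → ∀ u, h (e u) = e (h u)) :
    LinearMap.trace ℂ (A i).H1 (F i * e) = 0 := by
  -- the central endomorphism
  let z : Module.End ℂ X.H1 := ∑ m : Fin (n i), sl Φ i m ∘ₗ e ∘ₗ pr Φ i m
  have hz_apply : ∀ v, z v = ∑ m : Fin (n i), sl Φ i m (e (pr Φ i m v)) := fun v => by
    simp only [z, LinearMap.sum_apply, LinearMap.comp_apply]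
  have hzm : ∀ m : Fin (n i), X.IsEnd (fun v => sl Φ i m (e (pr Φ i m v))) := fun m =>
    (isEnd_iff _ _).mpr (isMor_comp (sl_mor hΦ i m)
      (isMor_comp ((isEnd_iff _ _).mp he) (pr_mor hΦ i m)))
  have hzE : X.IsEnd z := by
    rw [isEnd_iff]
    refine ⟨z.isLinear, fun v hv => ?_, fun v hv => ?_, fun v hv => ?_⟩
    · rw [hz_apply, isBetti_iff]
      refine Submodule.sum_mem _ fun m _ => ?_
      rw [← isBetti_iff]
      exact ((isEnd_iff _ _).mp (hzm m)).betti v hv
    · rw [hz_apply]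
      intro j
      rw [Finset.sum_apply]
      exact isAlg_sum _ _ fun m _ => ((isEnd_iff _ _).mp (hzm m)).deRham v hv j
    · rw [hz_apply]
      intro a
      rw [Finset.sum_apply]
      exact Finset.sum_eq_zero fun m _ => ((isEnd_iff _ _).mp (hzm m)).hodge v hv a
  -- z on the image of a morphism from a factor
  have hzi : ∀ g : (A i).H1 → X.H1, (A i).IsMor X g → ∀ u, z (g u) = g (e u) := by
    intro g hg u
    have h1 : ∀ m, e (pr Φ i m (g u)) = pr Φ i m (g (e u)) := fun m =>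
      (hc (fun u => pr Φ i m (g u)) ((isEnd_iff _ _).mpr (isMor_comp (pr_mor hΦ i m) hg)) u).symm
    rw [hz_apply, Finset.sum_congr rfl fun m _ => by rw [h1 m]]
    conv_rhs => rw [← sum_sl (Φ := Φ) (g (e u))]
    rw [Finset.sum_eq_single i]
    · intro j _ hj
      refine Finset.sum_eq_zero fun m _ => ?_
      have h2 := hA i j (Ne.symm hj) (fun u => pr Φ j m (g u)) (isMor_comp (pr_mor hΦ j m) hg)
        (e u)
      beta_reduce at h2
      rw [h2, map_zero]
    · intro h
      exact absurd (Finset.mem_univ _) h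
  have hzj : ∀ j, j ≠ i → ∀ g : (A j).H1 → X.H1, (A j).IsMor X g → ∀ u, z (g u) = 0 := by
    intro j hj g hg u
    rw [hz_apply]
    refine Finset.sum_eq_zero fun m _ => ?_
    have h2 := hA j i hj (fun u => pr Φ i m (g u)) (isMor_comp (pr_mor hΦ i m) hg) u
    beta_reduce at h2
    rw [h2, map_zero, map_zero]
  have hzZ : z ∈ Z := by
    rw [hZ]
    refine ⟨hzE, fun h hh v => ?_⟩
    have hm := (isEnd_iff _ _).mp hh
    obtain ⟨hl, hhl⟩ : ∃ hl : X.H1 →ₗ[ℂ] X.H1, ∀ v, hl v = h v :=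
      ⟨IsLinearMap.mk' h hh.linear, fun _ => rfl⟩
    have key := ext_sl (Φ := Φ) (hl ∘ₗ z) (z ∘ₗ hl) (fun j m u => ?_) v
    · change hl (z v) = z (hl v) at key
      rw [hhl, hhl] at key
      exact key
    · change hl (z (sl Φ j m u)) = z (hl (sl Φ j m u))
      rw [hhl, hhl]
      by_cases hj : j = i
      · subst hj
        rw [hzi _ (sl_mor hΦ j m) u]
        exact (hzi (fun u => h (sl Φ j m u)) (isMor_comp hm (sl_mor hΦ j m)) u).symm
      · rw [hzj j hj _ (sl_mor hΦ j m) u]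
        have h3 := hzj j hj (fun u => h (sl Φ j m u)) (isMor_comp hm (sl_mor hΦ j m)) u
        beta_reduce at h3
        rw [h3]
        rw [← hhl, map_zero]
  have h1 := htr z hzZ
  have h2 : f * z = ∑ m : Fin (n i), sl Φ i m ∘ₗ (F i * e) ∘ₗ pr Φ i m := by
    refine LinearMap.ext fun v => ?_
    rw [Module.End.mul_apply, hz_apply, map_sum, LinearMap.sum_apply]
    refine Finset.sum_congr rfl fun m _ => ?_
    rw [hF i _ (sl_mor hΦ i m)]
    rfl
  have h3 : ∀ m : Fin (n i), LinearMap.trace ℂ X.H1 (sl Φ i m ∘ₗ (F i * e) ∘ₗ pr Φ i m) =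
      LinearMap.trace ℂ (A i).H1 (F i * e) := by
    intro m
    rw [LinearMap.trace_comp_comm']
    congr 1
    refine LinearMap.ext fun u => ?_
    rw [LinearMap.comp_apply, LinearMap.comp_apply, pr_sl]
  rw [h2, map_sum, Finset.sum_congr rfl fun m _ => h3 m, Finset.sum_const, Finset.card_univ,
    Fintype.card_fin, nsmul_eq_mul] at h1
  exact (mul_eq_zero.mp h1).resolve_left (Nat.cast_ne_zero.mpr (hn i))

end

/-- Grothendieck classes are killed by the derived algebra of the Lefschetz Lie algebra, for abelian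
varieties all of whose simple factors have real multiplication of relative dimension one or two or
complex multiplication or are generic surfaces -/
theorem inv_centre (hKT : St_KT) (hAct : St_Act) (hGen : St_Gen) (X : AbVar)
    (hX : ∀ B : AbVar, B.IsSimpleFactor X →
      (∃ (K : Type) (_ : Field K) (_ : NumberField K), IsRMType B K) ∨
      (∃ (K : Type) (_ : Field K) (_ : NumberField K) (ρ : K → B.H1 → B.H1), B.HasCM K ρ) ∨
      (∃ (K : Type) (_ : Field K) (_ : NumberField K), B.IsRelTwoFactor X K) ∨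
      B.IsGenericSurface)
    (k : ℕ) (α : X.Class (2 * k)) (hα : X.IsGrothendieckClass k α)
    (Z : Subalgebra ℚ (Module.End ℂ X.H1)) (hZ : X.IsCentreAlg Z) : X.IsInvFor Z α := by
  classical
  obtain ⟨I, _, A, n, Φ, ι, hΦ, hg, hs, hA, hn, -, hι⟩ := Pool.Agent.Helper39.AF.exists_decomp X
  have hfac : ∀ i, (A i).IsSimpleFactor X := by
    intro i
    refine ⟨hs i, ι i, (hι i).1, ?_⟩
    by_contra hcon
    push Not at hcon
    let u : (A i).H1 := Pi.single (Sum.inl ⟨0, Nat.pos_of_ne_zero (hg i)⟩) 1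
    have h1 : ∀ v, (pData (A i)).ψ u v = 0 := by
      intro v
      have h2 := (hι i).2 u v
      have h3 : X.pol (ι i u) (ι i v) = 0 := by
        rw [hcon u, hcon v]
        simp [AbVar.pol]
      rw [h3] at h2
      exact h2.symm
    have h4 := congrFun ((pData (A i)).hψnd u h1) (Sum.inl ⟨0, Nat.pos_of_ne_zero (hg i)⟩)
    have h5 : u (Sum.inl ⟨0, Nat.pos_of_ne_zero (hg i)⟩) = 1 := Pi.single_eq_same _ _
    rw [h5] at h4
    exact one_ne_zero h4
  have hK : ∀ i, ∃ (K : Type) (_ : Field K) (_ : NumberField K), IsRMType (A i) K ∨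
      (A i).IsRelTwoFactor X K ∨ IsCMType (A i) K ∨
      ((A i).IsGenericSurface ∧ IsRelTwoType (A i) K ∧ finrank ℚ K = 1) := by
    intro i
    rcases hX (A i) (hfac i) with ⟨K, h1, h2, h⟩ | ⟨K, h1, h2, ρ, h⟩ | ⟨K, h1, h2, h⟩ | h
    · exact ⟨K, h1, h2, Or.inl h⟩
    · obtain ⟨K', h3, h4, h5, -⟩ := cm_of_hasCM h (hs i)
      exact ⟨K', h3, h4, Or.inr (Or.inr (Or.inl h5))⟩
    · exact ⟨K, h1, h2, Or.inr (Or.inl h)⟩
    · exact ⟨ℚ, inferInstance, inferInstance,
        Or.inr (Or.inr (Or.inr ⟨h, hGen (A i) h, finrank_self ℚ⟩))⟩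
  choose K iF iN hK using hK
  obtain ⟨S, hS⟩ : ∃ S : Finset I, ∀ i, i ∈ S ↔ IsRMType (A i) (K i) :=
    ⟨Finset.univ.filter fun i => IsRMType (A i) (K i), fun i => by simp⟩
  obtain ⟨U, hU⟩ : ∃ U : Finset I, ∀ i, i ∈ U ↔ (A i).IsRelTwoFactor X (K i) :=
    ⟨Finset.univ.filter fun i => (A i).IsRelTwoFactor X (K i), fun i => by simp⟩
  obtain ⟨T, hT⟩ : ∃ T : Finset I, ∀ i, i ∈ T ↔ IsCMType (A i) (K i) :=
    ⟨Finset.univ.filter fun i => IsCMType (A i) (K i), fun i => by simp⟩
  obtain ⟨G, hG⟩ : ∃ G : Finset I, ∀ i, i ∈ G ↔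
      ((A i).IsGenericSurface ∧ IsRelTwoType (A i) (K i) ∧ finrank ℚ (K i) = 1) :=
    ⟨Finset.univ.filter fun i => ((A i).IsGenericSurface ∧ IsRelTwoType (A i) (K i) ∧
      finrank ℚ (K i) = 1), fun i => by simp⟩
  have hST : ∀ i, i ∈ S ∨ i ∈ U ∪ G ∨ i ∈ T := fun i => by
    rw [hS, Finset.mem_union, hU, hT, hG]
    rcases hK i with h | h | h | h
    · exact Or.inl h
    · exact Or.inr (Or.inl (Or.inl h))
    · exact Or.inr (Or.inr h)
    · exact Or.inr (Or.inl (Or.inr h))
  have hUG : ∀ i ∈ U ∪ G, IsRelTwoType (A i) (K i) := by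
    intro i hi
    rcases Finset.mem_union.mp hi with h | h
    · exact ((hU i).mp h).type
    · exact ((hG i).mp h).2.1
  have hc := relTwoCond hΦ hg hfac hA hn K S U (fun i hi => (hS i).mp hi)
    (fun i hi => (hU i).mp hi)
  have hcG : CondG A n K S (U ∪ G) G := by
    refine ⟨fun i j _ _ _ _ hij => hA i j hij, Finset.subset_union_right,
      fun i hi => ((hG i).mp hi).1, fun i hi => ((hG i).mp hi).2.2, fun i hi hi' => ?_,
      fun i hi hi' => ?_⟩
    · exact hc.mult i ((Finset.mem_union.mp hi).resolve_right hi')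
    · exact hc.link i ((Finset.mem_union.mp hi).resolve_right hi')
  have hα' := grothendieck_transfer hΦ α hα
  obtain ⟨F, hF⟩ := exists_sys A K S (U ∪ G) T hST (fun i hi => (hS i).mp hi) hUG
    (fun i hi => (hT i).mp hi)
  have hact := hAct hKT I A n K S (U ∪ G) G (fun i hi => (hS i).mp hi) hUG hcG F hF k _ hα'
  intro f hf v
  have hfc : ∀ h, X.IsEnd h → ∀ v, f (h v) = h (f v) := fun h hh v =>
    hf.comm h hh (fun z hz v => ((hZ z).mp hz).2 h hh v) v
  obtain ⟨g, hg1, hg2⟩ := comps hΦ hn f hfc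
  have hlift := eq_lift hΦ f g hg1
  have hkill := kill A n K F (α.compLinearMap Φ.symm.toLinearMap) hact (g, 0) ⟨?_, ?_⟩ ?_
    (fun r => Φ (v r))
  · rw [← hkill]
    refine Finset.sum_congr rfl fun r _ => ?_
    rw [AlternatingMap.compLinearMap_apply]
    congr 1
    funext s
    change _ = Φ.symm (Function.update (fun r => Φ (v r)) r (lift n g (Φ (v r))) s)
    by_cases hs' : s = r
    · subst hs'
      rw [Function.update_self, Function.update_self]
      exact hlift (v s)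
    · rw [Function.update_of_ne hs', Function.update_of_ne hs', Φ.symm_apply_apply]
  · intro i j h hh v
    by_cases hij : i = j
    · subst hij
      exact hg2 i h (isEnd_of_isDRB (A i) h hh) v
    · have h1 := (isDRB_iff (A i) (A j) h).mp hh
      have h2 : (A i).IsMor (A j) h := isMor_of (A i) (A j) h.isLinear h1.1 h1.2
      have h3 := hA i j hij h h2
      show g j (h v) = h (g i v)
      rw [h3, h3, map_zero]
  · intro i u v
    show (pData (A i)).ψ (g i u) v + (pData (A i)).ψ u (g i v) = 0 * _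
    rw [zero_mul]
    have h1 := hf.skew (ι i u) (ι i v)
    rw [hg1 i _ (hι i).1 u, hg1 i _ (hι i).1 v, (hι i).2, (hι i).2] at h1
    exact h1
  · intro t
    by_cases ht : (F t.1).isLeft
    · rw [chiC_left (fun i => pData (A i)) F (g, 0) t ht]
      simp
    · show (F t.1).chi t.2 (g t.1) 0 = 0
      have hend : ∀ x, (A t.1).IsEnd ((F t.1).ρ x) := fun x =>
        isEnd_of_isDRB (A t.1) _ ((F t.1).hρ x)
      have htT : t.1 ∈ T := by
        rcases hST t.1 with h1 | h1 | h1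
        · exact absurd ((hF.left t.1).mpr (Or.inl h1)) ht
        · exact absurd ((hF.left t.1).mpr (Or.inr h1)) ht
        · exact h1
      obtain ⟨ρ', hρ'⟩ := hasCM_of_isCMType ((hT t.1).mp htT)
      have hab : ∀ g h : (A t.1).H1 → (A t.1).H1, (A t.1).IsEnd g → (A t.1).IsEnd h →
          ∀ v, g (h v) = h (g v) := by
        intro g h hg' hh v
        obtain ⟨x, hx⟩ := cm_full hρ' (hs t.1) g hg'
        obtain ⟨y, hy⟩ := cm_full hρ' (hs t.1) h hh
        rw [hx, hy, hy, hx, ← hρ'.mul, ← hρ'.mul, mul_comm]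
      refine chi_zero (F t.1) ht (g t.1) (fun x v => ((hg2 t.1 _ (hend x) v).symm).symm)
        (fun x => ?_) t.2
      exact tr_zero hΦ hn hA f g hg1 hZ hf.trace t.1 ((F t.1).ρ x) (hend x)
        (fun h hh u => hab h _ hh (hend x) u)

end Pool.Agent.Helper7.LEF
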