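import Pool.Agent.Helper7.CM8.Main

/-!
Abelian varieties all of whose simple factors are of dimension at most two or have real
multiplication of relative dimension one or two or complex multiplication.
-/

namespace Pool.Agent.GPC

/-- Every simple factor `B` of `X` is of one of the following four kinds:

* `dim B ≤ 2`;
* there is a totally real field `K`, `[K : ℚ] = dim B`, of Rosati-symmetric elements of
  `End(B) ⊗ ℚ`, which is equal to its centraliser in `End(B) ⊗ ℚ`;
* a field `K`, `[K : ℚ] = 2 dim B`, acts on `B` up to isogeny;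
* `End(B) ⊗ ℚ` is a totally real field `K`, `dim B = 2 [K : ℚ]`, and the conditions of
  `IsRelTwoFactor` hold. -/
def AbVar.HasLowFactors (X : AbVar) : Prop :=
  ∀ B : AbVar, B.IsSimpleFactor X → B.g ≤ 2 ∨
    (∃ (K : Type) (_ : Field K) (_ : NumberField K), IsRMType B K) ∨
    (∃ (K : Type) (_ : Field K) (_ : NumberField K) (ρ : K → B.H1 → B.H1), B.HasCM K ρ) ∨
    (∃ (K : Type) (_ : Field K) (_ : NumberField K), B.IsRelTwoFactor X K)

end Pool.Agent.GPC
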