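import Pool.Agent.Helper7.LEF.Types
import Pool.Agent.Helper7.LEF.Types2
import Pool.Agent.Helper7.LEF.Inv
import Pool.Agent.WPP.TypesT

/-!
Commutative algebras acting on `H_1(X)`: comparison with the subalgebras of the algebra of
endomorphisms.
-/

namespace Pool.Agent.Helper7.LEF

open Module NumberField Pool.Agent.GPC Pool.Agent.Helper7 Pool.Agent.Helper39.AF

/-- the trace in the standard basis -/
private lemma trace_eq {g : ℕ} (F : (Fin g ⊕ Fin g → ℂ) →ₗ[ℂ] (Fin g ⊕ Fin g → ℂ)) :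
    LinearMap.trace ℂ (Fin g ⊕ Fin g → ℂ) F = ∑ s, F (Pi.single s 1) s := by
  classical
  rw [LinearMap.trace_eq_matrix_trace ℂ (Pi.basisFun ℂ _) F, Matrix.trace]
  refine Finset.sum_congr rfl fun s _ => ?_
  rw [Matrix.diag_apply, LinearMap.toMatrix_apply, Pi.basisFun_apply, Pi.basisFun_repr]

section

variable {X : AbVar} {Z : Type} [CommRing Z] [Algebra ℚ Z] {ρ : Z → X.H1 → X.H1}

private lemma lin (hZ : X.IsRosatiAct Z ρ) (z : Z) : IsLinearMap ℂ (ρ z) :=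
  ((isEnd_iff X _).mp (hZ.endo z)).linear

/-- the ring homomorphism -/
private noncomputable def rh (hZ : X.IsRosatiAct Z ρ) : Z →+* Module.End ℂ X.H1 where
  toFun z := IsLinearMap.mk' (ρ z) (lin hZ z)
  map_one' := LinearMap.ext fun v => hZ.one v
  map_mul' x y := LinearMap.ext fun v => hZ.mul x y v
  map_zero' := LinearMap.ext fun v => by
    have h1 := hZ.add 0 0 v
    rw [add_zero] at h1
    have h2 : ρ 0 v = 0 := by
      have h3 : ρ 0 v + 0 = ρ 0 v + ρ 0 v := by rw [add_zero]; exact h1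
      exact (add_left_cancel h3).symm
    exact h2
  map_add' x y := LinearMap.ext fun v => hZ.add x y v

private lemma rh_apply (hZ : X.IsRosatiAct Z ρ) (z : Z) (v : X.H1) : rh hZ z v = ρ z v := rfl

/-- the algebra homomorphism -/
private noncomputable def ah (hZ : X.IsRosatiAct Z ρ) : Z →ₐ[ℚ] Module.End ℂ X.H1 :=
  RingHom.toRatAlgHom (rh hZ)

private lemma ah_apply (hZ : X.IsRosatiAct Z ρ) (z : Z) (v : X.H1) : ah hZ z v = ρ z v := rfl

private lemma ah_coe (hZ : X.IsRosatiAct Z ρ) (z : Z) : (ah hZ z : X.H1 → X.H1) = ρ z :=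
  funext fun v => ah_apply hZ z v

private lemma ah_inj (hZ : X.IsRosatiAct Z ρ) : Function.Injective (ah hZ) := by
  rw [injective_iff_map_eq_zero]
  intro x hx
  refine hZ.inj x fun v => ?_
  rw [← ah_apply hZ, hx]
  rfl

private lemma rosati (hZ : X.IsRosatiAct Z ρ) : X.IsRosatiAlg (ah hZ).range := by
  refine ⟨?_, ?_, ?_⟩
  · rintro _ ⟨z, rfl⟩
    rw [AlgHom.toRingHom_eq_coe, RingHom.coe_coe, ah_coe]
    exact hZ.endo z
  · rintro _ ⟨x, rfl⟩ _ ⟨y, rfl⟩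
    rw [AlgHom.toRingHom_eq_coe, RingHom.coe_coe, ← map_mul, ← map_mul, mul_comm]
  · rintro _ ⟨x, rfl⟩
    obtain ⟨y, hy⟩ := hZ.adj x
    refine ⟨ah hZ y, ⟨y, rfl⟩, ?_⟩
    rw [AlgHom.toRingHom_eq_coe, RingHom.coe_coe, ah_coe, ah_coe]
    exact hy

private lemma inv (hZ : X.IsRosatiAct Z ρ) {m : ℕ} {α : X.Class m} (h : X.IsInvAct Z ρ α) :
    X.IsInvFor (ah hZ).range α := by
  intro f hf v
  refine h f ⟨f.isLinear, fun h' hh hc => hf.comm h' hh ?_, hf.skew, fun z => ?_⟩ v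
  · rintro _ ⟨z, rfl⟩ v
    rw [AlgHom.toRingHom_eq_coe, RingHom.coe_coe, ah_apply, ah_apply]
    exact hc z v
  · have h1 := hf.trace (ah hZ z) ⟨z, rfl⟩
    exact (trace_eq (f * ah hZ z)).symm.trans h1

private lemma centre (hZ : X.IsRosatiAct Z ρ) (h : X.IsCentreAct Z ρ) :
    X.IsCentreAlg (ah hZ).range := by
  intro z
  constructor
  · rintro ⟨x, rfl⟩
    rw [AlgHom.toRingHom_eq_coe, RingHom.coe_coe]
    simp only [ah_apply, ah_coe]
    exact (h (ρ x)).mp ⟨x, rfl⟩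
  · intro hz
    obtain ⟨x, hx⟩ := (h z).mpr hz
    refine ⟨x, ?_⟩
    rw [AlgHom.toRingHom_eq_coe, RingHom.coe_coe]
    refine LinearMap.ext fun v => ?_
    rw [ah_apply, hx]

private lemma abel (hZ : X.IsRosatiAct Z ρ) (h : HasAbelianQuotients Z) :
    X.HasAbelianFactors (ah hZ).range := by
  intro K _ _ φ hφ
  refine h K ((φ : (ah hZ).range →+* K).comp ((ah hZ).rangeRestrict : Z →+* (ah hZ).range)) ?_
  intro y
  obtain ⟨⟨_, x, rfl⟩, hy⟩ := hφ y
  exact ⟨x, hy⟩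

/-- the isomorphism with the image -/
private noncomputable def iso (hZ : X.IsRosatiAct Z ρ) : Z ≃ₐ[ℚ] (ah hZ).range :=
  AlgEquiv.ofInjective (ah hZ) (ah_inj hZ)

private lemma iso_coe (hZ : X.IsRosatiAct Z ρ) (z : Z) :
    ((iso hZ z : (ah hZ).range) : Module.End ℂ X.H1) = ah hZ z := rfl

/-- the homomorphisms into the complex numbers -/
private noncomputable def hom (hZ : X.IsRosatiAct Z ρ) : (Z →+* ℂ) ≃ ((ah hZ).range →+* ℂ) where
  toFun σ := σ.comp ((iso hZ).symm : (ah hZ).range →+* Z)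
  invFun σ := σ.comp ((iso hZ) : Z →+* (ah hZ).range)
  left_inv σ := RingHom.ext fun z => by
    change σ ((iso hZ).symm (iso hZ z)) = σ z
    rw [AlgEquiv.symm_apply_apply]
  right_inv σ := RingHom.ext fun z => by
    change σ (iso hZ ((iso hZ).symm z)) = σ z
    rw [AlgEquiv.apply_symm_apply]

private lemma hom_apply (hZ : X.IsRosatiAct Z ρ) (σ : Z →+* ℂ) (z : Z) :
    hom hZ σ (iso hZ z) = σ z := by
  change σ ((iso hZ).symm (iso hZ z)) = σ z
  rw [AlgEquiv.symm_apply_apply]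

private lemma hom_comp (hZ : X.IsRosatiAct Z ρ) (σ : Z →+* ℂ) (g : ℂ →+* ℂ) :
    hom hZ (g.comp σ) = g.comp (hom hZ σ) := rfl

private lemma dim (hZ : X.IsRosatiAct Z ρ) (σ : Z →+* ℂ) :
    X.dimFilAct ρ σ = X.dimFil (ah hZ).range (hom hZ σ) := by
  have hset : {v : X.H1 | (∀ z, ρ z v = σ z • v) ∧ X.IsFil v} =
      {v : X.H1 | (∀ z : (ah hZ).range, (z : Module.End ℂ X.H1) v = hom hZ σ z • v) ∧
        X.IsFil v} := by
    ext v
    refine and_congr (Iff.intro (fun h z => ?_) (fun h z => ?_)) Iff.rfl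
    · obtain ⟨x, rfl⟩ := (iso hZ).surjective z
      rw [iso_coe, ah_apply, hom_apply]
      exact h x
    · have h1 := h (iso hZ z)
      rw [iso_coe, ah_apply, hom_apply] at h1
      exact h1
  unfold AbVar.dimFilAct AbVar.dimFil
  rw [hset]

private lemma weight (hZ : X.IsRosatiAct Z ρ) (f : ((ah hZ).range →+* ℂ) → ℚ) (g : ℂ ≃+* ℂ) :
    X.weightAct ρ (fun σ => f (hom hZ σ)) g = X.weightAt (ah hZ).range f g := by
  unfold AbVar.weightAct AbVar.weightAt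
  rw [← finsum_comp_equiv (hom hZ)]
  refine finsum_congr fun σ => ?_
  rw [dim hZ]
  rfl

private lemma three (hZ : X.IsRosatiAct Z ρ) (h : X.HasThreeWeightsAct Z ρ) :
    X.HasThreeWeights (ah hZ).range := by
  intro V hodd hst hex
  let L : (((ah hZ).range →+* ℂ) → ℚ) →ₗ[ℚ] ((Z →+* ℂ) → ℚ) := LinearMap.funLeft ℚ ℚ (hom hZ)
  have hL : ∀ f σ, L f σ = f (hom hZ σ) := fun f σ => rfl
  obtain ⟨f0, hf0, hw0⟩ := hex
  have c1 : ∀ F ∈ V.map L, ∀ σ, F ((starRingEnd ℂ).comp σ) = - F σ := by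
    intro F hF σ
    obtain ⟨f, hf, rfl⟩ := Submodule.mem_map.mp hF
    rw [hL, hL, hom_comp]
    exact hodd f hf _
  have c2 : ∀ F ∈ V.map L, ∀ g : ℂ ≃+* ℂ,
      (fun σ => F ((g : ℂ →+* ℂ).comp σ)) ∈ V.map L := by
    intro F hF g
    obtain ⟨f, hf, rfl⟩ := Submodule.mem_map.mp hF
    exact Submodule.mem_map.mpr ⟨_, hst f hf g, rfl⟩
  have c3 : X.weightAct ρ (L f0) 1 ≠ 0 := by
    have h1 := weight hZ f0 1
    change X.weightAct ρ (fun σ => f0 (hom hZ σ)) 1 ≠ 0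
    rw [h1]
    exact hw0
  obtain ⟨F, hF, hw, N, hN⟩ := h (V.map L) c1 c2 ⟨L f0, Submodule.mem_map_of_mem hf0, c3⟩
  obtain ⟨f, hf, rfl⟩ := Submodule.mem_map.mp hF
  refine ⟨f, hf, ?_, N, fun g => ?_⟩
  · rw [← weight hZ]
    exact hw
  · rw [← weight hZ]
    exact hN g

end

/-- the theorem, from the results on subalgebras -/
theorem main_act (hW : ∀ (X : AbVar) (Z : Subalgebra ℚ (Module.End ℂ X.H1)) (k : ℕ)
      (α : X.Class (2 * k)), X.IsRosatiAlg Z → X.IsGrothendieckClass k α → X.IsInvFor Z α →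
      ((∃ j, X.HasTypes k j α) ∨ X.HasAbelianFactors Z ∨ X.HasThreeWeights Z) → X.IsInFil k α)
    (hI : ∀ (X : AbVar), X.HasLowFactors → ∀ (k : ℕ) (α : X.Class (2 * k)),
      X.IsGrothendieckClass k α → ∀ Z : Subalgebra ℚ (Module.End ℂ X.H1), X.IsCentreAlg Z →
      X.IsInvFor Z α)
    (hP : ∀ (X : AbVar), X.HasLowFactors → ∀ (k : ℕ) (α : X.Class (2 * k)),
      X.IsGrothendieckClass k α → X.IsCMPairVar → X.IsInFil k α)
    (X : AbVar) (Z : Type) [CommRing Z] [Algebra ℚ Z] (ρ : Z → X.H1 → X.H1)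
    (hZ : X.IsRosatiAct Z ρ) (k : ℕ) (α : X.Class (2 * k)) (hα : X.IsGrothendieckClass k α)
    (h1 : X.IsInvAct Z ρ α ∨ X.IsCentreAct Z ρ ∧ X.HasLowFactors)
    (h2 : (∃ j, X.HasTypes k j α) ∨ HasAbelianQuotients Z ∨ X.HasThreeWeightsAct Z ρ ∨
      X.HasLowFactors ∧ X.IsCMPairVar) : X.IsInFil k α := by
  have hinv : X.IsInvFor (ah hZ).range α := by
    rcases h1 with h | ⟨h, h'⟩
    · exact inv hZ h
    · exact hI X h' k α hα _ (centre hZ h)
  rcases h2 with h | h | h | ⟨h, h'⟩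
  · exact hW X _ k α (rosati hZ) hα hinv (Or.inl h)
  · exact hW X _ k α (rosati hZ) hα hinv (Or.inr (Or.inl (abel hZ h)))
  · exact hW X _ k α (rosati hZ) hα hinv (Or.inr (Or.inr (three hZ h)))
  · exact hP X h k α hα h'

end Pool.Agent.Helper7.LEF
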