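import Pool.Agent.KT.Alg.All
import Pool.Agent.KT.Final
import Pool.Agent.WPP.AllT
import Pool.Agent.Helper7.LEF.Bridge
import Pool.Agent.Helper31.KTS.Small

/-!
Grothendieck classes and Hodge classes on abelian varieties over the algebraic numbers: assembly.
-/

namespace Pool.Agent.Helper7.LEF

open Pool.Agent.GPC

/-- the simple factors of dimension at most two -/
private lemma four {X : AbVar} (hX : X.HasLowFactors) (B : AbVar) (hB : B.IsSimpleFactor X) :
    (∃ (K : Type) (_ : Field K) (_ : NumberField K), IsRMType B K) ∨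
      (∃ (K : Type) (_ : Field K) (_ : NumberField K) (ρ : K → B.H1 → B.H1), B.HasCM K ρ) ∨
      (∃ (K : Type) (_ : Field K) (_ : NumberField K), B.IsRelTwoFactor X K) ∨
      B.IsGenericSurface := by
  rcases hX B hB with h | h | h | h
  · rcases Helper31.KTS.small hB.1 (Helper31.KTS.factor_ne hB) h with h | h | h
    · exact Or.inl h
    · exact Or.inr (Or.inl h)
    · exact Or.inr (Or.inr (Or.inr h))
  · exact Or.inl h
  · exact Or.inr (Or.inl h)
  · exact Or.inr (Or.inr (Or.inl h))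

/-- the theorem for algebras acting on `H_1(X)` -/
theorem final (X : AbVar) (Z : Type) [CommRing Z] [Algebra ℚ Z] (ρ : Z → X.H1 → X.H1)
    (hZ : X.IsRosatiAct Z ρ) (k : ℕ) (α : X.Class (2 * k)) (hα : X.IsGrothendieckClass k α)
    (h1 : X.IsInvAct Z ρ α ∨ X.IsCentreAct Z ρ ∧ X.HasLowFactors)
    (h2 : (∃ j, X.HasTypes k j α) ∨ HasAbelianQuotients Z ∨ X.HasThreeWeightsAct Z ρ ∨
      X.HasLowFactors ∧ X.IsCMPairVar) : X.IsInFil k α := by
  refine main_act ?_ ?_ ?_ X Z ρ hZ k α hα h1 h2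
  · intro X Z k α hZ hα hinv h
    rcases h with h | h | h
    · exact WPP.All.Wzz_ X Z k α hZ hα hinv (Or.inl h)
    · exact WPP.All.Wzz_ X Z k α hZ hα hinv (Or.inr h)
    · exact WPP.All.ThrZ_ X Z k α hZ hα hinv h
  · intro X hX k α hα Z hZ
    exact inv_centre Pool.Agent.KT.thm_KT Pool.Agent.KT.Alg.Act_ Pool.Agent.KT.Alg.thm_Gen X (four hX)
      k α hα Z hZ
  · intro X hX k α hα hP
    exact Pool.Agent.Helper7.CM8.main_8 Pool.Agent.KT.thm_KT Pool.Agent.KT.Alg.Act_
      Pool.Agent.KT.Alg.thm_Gen X (four hX) k α hα (Or.inr hP)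

end Pool.Agent.Helper7.LEF
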