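import Pool.Agent.WPP.StZ
import Pool.Agent.Helper39.AF.Decomp
import Pool.Agent.Helper39.AF.Mor
import Pool.Agent.Helper8.T1.Transfer
import Pool.Agent.Helper8.T1.Simple
import Pool.Agent.Helper7.CM8.Main

/-!
Grothendieck classes with at most three Hodge types are Hodge classes, for abelian varieties all of
whose simple factors have real multiplication of relative dimension one or two or complex
multiplication or are generic surfaces.
-/

namespace Pool.Agent.Helper7.LEF

open Module NumberField Pool.Agent.GPC Pool.Agent.Helper7 Pool.Agent.Helper39.AF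
open Pool.Agent.Helper8.T1 Pool.Agent.Helper26.GPC Pool.Agent.KT.Alg Pool.Agent.Helper7.HU

section chi

variable {κ : Type} [Fintype κ] [DecidableEq κ] {ϖ : ℂ} {P : PData κ ϖ} {K : Type} [Field K]
    [NumberField K]

/-- the coordinate of the eigenvector -/
private lemma cv_ev (F : FS P K) (hF : ¬ F.isLeft) (σ : K →+* ℂ) : F.cv σ (F.ev σ) = 1 := by
  classical
  cases F with
  | inl F => exact absurd rfl hF
  | inr F =>
    show F.1.lf.co σ 0 (F.1.e σ 0) = 1
    rw [F.1.co_e σ 0 σ 0 (Or.inr rfl), if_pos ⟨rfl, rfl⟩]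

/-- an operator of trace zero on every eigenline has the weights zero -/
private theorem chi_zero (F : FS P K) (hF : ¬ F.isLeft) (f : Module.End ℂ (κ → ℂ))
    (hf : ∀ x v, f (F.ρ x v) = F.ρ x (f v))
    (htr : ∀ x, LinearMap.trace ℂ (κ → ℂ) (f * F.ρ x) = 0) (σ : K →+* ℂ) :
    F.chi σ f 0 = 0 := by
  have h1 : LinearMap.trace ℂ (κ → ℂ) (f * proj F.ρ σ) = 0 := by
    unfold proj
    rw [Finset.mul_sum, map_sum]
    refine Finset.sum_eq_zero fun b _ => ?_
    rw [mul_smul_comm, map_smul, htr, smul_zero]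
  have h2 : f * proj F.ρ σ = (F.cv σ).smulRight (F.chi σ f 0 • F.ev σ) := by
    refine LinearMap.ext fun v => ?_
    rw [Module.End.mul_apply, F.proj_cm hF, map_smul, F.ev_act hF σ f 0 hf,
      LinearMap.smulRight_apply]
  rw [h2, LinearMap.trace_smulRight] at h1
  rw [map_smul, cv_ev F hF, smul_eq_mul, mul_one] at h1
  exact h1

end chi

section family

variable {I : Type} [Fintype I] [DecidableEq I] (A : I → AbVar) (n : I → ℕ) (K : I → Type)
  [∀ i, Field (K i)] [∀ i, NumberField (K i)] (F : ∀ i, FS (pData (A i)) (K i))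
  {k : ℕ} (α : Form A n (2 * k))

/-- a symmetry with the weights zero kills the form -/
private theorem kill (hact : ActLab A n K F k α) (H : GG (fun i => Fin (A i).g ⊕ Fin (A i).g))
    (hH : IsMT (fun i => pData (A i)) H)
    (hchi : ∀ t : Emb K, chiC (fun i => pData (A i)) F t H = 0)
    (v : Fin (2 * k) → H1 A n) :
    ∑ r, α (Function.update v r (lift n H.1 (v r))) = 0 := by
  classical
  have h2 : ∀ u : Fin (2 * k) → HW (fun i => Fin (A i).g ⊕ Fin (A i).g) n,
      α u = ∑ b : Fin (2 * k) → At n K,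
        α (fun r => EE n (fun i => pData (A i)) F (b r) (u r)) := fun u =>
    Pool.Agent.Helper8.sum_labels α u
  have h3 : ∀ r, α (Function.update v r (lift n H.1 (v r))) =
      ∑ b : Fin (2 * k) → At n K,
        α (Function.update (fun s => EE n (fun i => pData (A i)) F (b s) (v s)) r
          (lift n H.1 (EE n (fun i => pData (A i)) F (b r) (v r)))) := by
    intro r
    rw [h2]
    refine Finset.sum_congr rfl fun b _ => ?_
    congr 1
    funext s
    by_cases hs : s = r
    · subst hs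
      rw [Function.update_self, Function.update_self, EE_comm n (fun i => pData (A i)) F H hH]
    · rw [Function.update_of_ne hs, Function.update_of_ne hs]
  rw [Finset.sum_congr rfl fun r _ => h3 r, Finset.sum_comm]
  refine Finset.sum_eq_zero fun b _ => ?_
  rw [hact H hH b v _ rfl, Finset.sum_eq_zero fun r _ => hchi _, zero_mul]

end family

/-- the types of the form on the product -/
private theorem typ {X : AbVar} {I : Type} [Fintype I] [DecidableEq I] {A : I → AbVar} {n : I → ℕ}
    {Φ : X.H1 ≃ₗ[ℂ] H1 A n} (hΦ : IsIsogeny X A n Φ) {k j : ℕ} (α : X.Class (2 * k))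
    (hα : X.HasTypes k j α) : WPP.TypF A n k j (α.compLinearMap Φ.symm.toLinearMap) := by
  intro v s h1 h2 c1 c2 c3
  rw [AlternatingMap.compLinearMap_apply]
  have hs : ∀ (i : I) (m : Fin (n i)), (A i).IsMor X (fun u =>
      Φ.symm (slotL (κ := fun i => Fin (A i).g ⊕ Fin (A i).g) n i m u)) := by
    intro i m
    have hent : ∀ (u : (A i).H1) (p : ∀ j, (A j).H1 → Prop), (∀ j, p j 0) → p i u →
        ∀ (j : I) (m' : Fin (n j)),
        p j (slotL (κ := fun i => Fin (A i).g ⊕ Fin (A i).g) n i m u j m') := by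
      intro u p h0 h j m'
      by_cases hj : j = i
      · subst hj
        by_cases hm : m' = m
        · subst hm
          have h1 := prL_slotL (κ := fun i => Fin (A i).g ⊕ Fin (A i).g) n j m' u
          change slotL (κ := fun i => Fin (A i).g ⊕ Fin (A i).g) n j m' u j m' = u at h1
          rw [h1]
          exact h
        · have h1 := prL_slotL_ne (κ := fun i => Fin (A i).g ⊕ Fin (A i).g) n j m m' hm u
          change slotL (κ := fun i => Fin (A i).g ⊕ Fin (A i).g) n j m u j m' = 0 at h1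
          rw [h1]
          exact h0 j
      · have h1 := prL_slotL_ne' (κ := fun i => Fin (A i).g ⊕ Fin (A i).g) n i j m m' hj u
        change slotL (κ := fun i => Fin (A i).g ⊕ Fin (A i).g) n i m u j m' = 0 at h1
        rw [h1]
        exact h0 j
    refine ⟨(Φ.symm.toLinearMap ∘ₗ
      slotL (κ := fun i => Fin (A i).g ⊕ Fin (A i).g) n i m).isLinear, fun v hv => ?_,
      fun v hv => ?_, fun v hv => ?_⟩
    · rw [hΦ.betti, Φ.apply_symm_apply]
      exact fun j m' => hent v (fun j w => (A j).IsBetti w) (fun j => by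
        rw [isBetti_iff]
        exact Submodule.zero_mem _) hv j m'
    · rw [hΦ.deRham, Φ.apply_symm_apply]
      exact fun j m' => hent v (fun j w => (A j).IsDeRham w)
        (fun j _ => isAlgebraic_zero) hv j m'
    · rw [hΦ.fil, Φ.apply_symm_apply]
      exact fun j m' => hent v (fun j w => (A j).IsFil w) (fun j _ => rfl) hv j m'
  have hsum : ∀ y : H1 A n, Φ.symm y = ∑ i, ∑ m : Fin (n i),
      Φ.symm (slotL (κ := fun i => Fin (A i).g ⊕ Fin (A i).g) n i m (y i m)) := by
    intro y
    have h1 := congrArg Φ.symm (sum_slot (κ := fun i => Fin (A i).g ⊕ Fin (A i).g) n y)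
    rw [map_sum] at h1
    rw [← h1]
    refine Finset.sum_congr rfl fun i _ => ?_
    rw [map_sum]
  refine hα (fun r => Φ.symm (v r)) s ?_ ?_ c1 c2 c3
  · intro r hr
    exact (fil_symm hΦ _).mpr (h1 r hr)
  · intro r hr
    choose v' hv' using fun i m => h2 r hr i m
    choose a b ha hb e1 e2 using fun i m => (hv' i m).1
    have hlin : ∀ (i : I) (m : Fin (n i)) (x y : (A i).H1) (c : ℂ),
        Φ.symm (slotL (κ := fun i => Fin (A i).g ⊕ Fin (A i).g) n i m (x + c • y)) =
        Φ.symm (slotL (κ := fun i => Fin (A i).g ⊕ Fin (A i).g) n i m x) +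
          c • Φ.symm (slotL (κ := fun i => Fin (A i).g ⊕ Fin (A i).g) n i m y) := by
      intro i m x y c
      rw [map_add, map_smul, map_add, map_smul]
    refine ⟨Φ.symm (fun i m => v' i m), ⟨Φ.symm (fun i m => a i m), Φ.symm (fun i m => b i m),
      ?_, ?_, ?_, ?_⟩, ?_⟩
    · show _ ∈ Submodule.span ℝ _
      rw [hsum]
      exact Submodule.sum_mem _ fun i _ => Submodule.sum_mem _ fun m _ => VR_mor (hs i m) (ha i m)
    · show _ ∈ Submodule.span ℝ _
      rw [hsum]
      exact Submodule.sum_mem _ fun i _ => Submodule.sum_mem _ fun m _ => VR_mor (hs i m) (hb i m)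
    · rw [← map_smul, ← map_add]
      congr 1
      funext i m
      exact e1 i m
    · rw [← map_smul, ← map_sub]
      congr 1
      funext i m
      exact e2 i m
    · rw [fil_symm hΦ]
      exact fun i m => (hv' i m).2

/-- Grothendieck classes with at most three Hodge types `(k, k)`, `(k ± j, k ∓ j)` are Hodge classes,
for abelian varieties all of whose simple factors have real multiplication of relative dimension one
or two or complex multiplication or are generic surfaces -/
theorem main_types (hFamHK : WPP.St_FamHK) (hCen : WPP.St_Cen) (hRos : WPP.St_Ros)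
    (hKT : St_KT) (hAct : St_Act) (hGen : St_Gen) (X : AbVar)
    (hX : ∀ B : AbVar, B.IsSimpleFactor X →
      (∃ (K : Type) (_ : Field K) (_ : NumberField K), IsRMType B K) ∨
      (∃ (K : Type) (_ : Field K) (_ : NumberField K) (ρ : K → B.H1 → B.H1), B.HasCM K ρ) ∨
      (∃ (K : Type) (_ : Field K) (_ : NumberField K), B.IsRelTwoFactor X K) ∨
      B.IsGenericSurface)
    (k j : ℕ) (α : X.Class (2 * k)) (hα : X.IsGrothendieckClass k α)
    (htyp : X.HasTypes k j α) : X.IsInFil k α := by
  classical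
  obtain ⟨I, _, A, n, Φ, ι, hΦ, hg, hs, hA, hn, -, hι⟩ := Pool.Agent.Helper39.AF.exists_decomp X
  have hfac : ∀ i, (A i).IsSimpleFactor X := by
    intro i
    refine ⟨hs i, ι i, (hι i).1, ?_⟩
    by_contra hcon
    push Not at hcon
    let u : (A i).H1 := Pi.single (Sum.inl ⟨0, Nat.pos_of_ne_zero (hg i)⟩) 1
    have h1 : ∀ v, (pData (A i)).ψ u v = 0 := by
      intro v
      have h2 := (hι i).2 u v
      have h3 : X.pol (ι i u) (ι i v) = 0 := by
        rw [hcon u, hcon v]
        simp [AbVar.pol]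
      rw [h3] at h2
      exact h2.symm
    have h4 := congrFun ((pData (A i)).hψnd u h1) (Sum.inl ⟨0, Nat.pos_of_ne_zero (hg i)⟩)
    have h5 : u (Sum.inl ⟨0, Nat.pos_of_ne_zero (hg i)⟩) = 1 := Pi.single_eq_same _ _
    rw [h5] at h4
    exact one_ne_zero h4
  have hK : ∀ i, ∃ (K : Type) (_ : Field K) (_ : NumberField K), IsRMType (A i) K ∨
      (A i).IsRelTwoFactor X K ∨ IsCMType (A i) K ∨
      ((A i).IsGenericSurface ∧ IsRelTwoType (A i) K ∧ finrank ℚ K = 1) := by
    intro i
    rcases hX (A i) (hfac i) with ⟨K, h1, h2, h⟩ | ⟨K, h1, h2, ρ, h⟩ | ⟨K, h1, h2, h⟩ | h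
    · exact ⟨K, h1, h2, Or.inl h⟩
    · obtain ⟨K', h3, h4, h5, -⟩ := cm_of_hasCM h (hs i)
      exact ⟨K', h3, h4, Or.inr (Or.inr (Or.inl h5))⟩
    · exact ⟨K, h1, h2, Or.inr (Or.inl h)⟩
    · exact ⟨ℚ, inferInstance, inferInstance,
        Or.inr (Or.inr (Or.inr ⟨h, hGen (A i) h, finrank_self ℚ⟩))⟩
  choose K iF iN hK using hK
  obtain ⟨S, hS⟩ : ∃ S : Finset I, ∀ i, i ∈ S ↔ IsRMType (A i) (K i) :=
    ⟨Finset.univ.filter fun i => IsRMType (A i) (K i), fun i => by simp⟩
  obtain ⟨U, hU⟩ : ∃ U : Finset I, ∀ i, i ∈ U ↔ (A i).IsRelTwoFactor X (K i) :=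
    ⟨Finset.univ.filter fun i => (A i).IsRelTwoFactor X (K i), fun i => by simp⟩
  obtain ⟨T, hT⟩ : ∃ T : Finset I, ∀ i, i ∈ T ↔ IsCMType (A i) (K i) :=
    ⟨Finset.univ.filter fun i => IsCMType (A i) (K i), fun i => by simp⟩
  obtain ⟨G, hG⟩ : ∃ G : Finset I, ∀ i, i ∈ G ↔
      ((A i).IsGenericSurface ∧ IsRelTwoType (A i) (K i) ∧ finrank ℚ (K i) = 1) :=
    ⟨Finset.univ.filter fun i => ((A i).IsGenericSurface ∧ IsRelTwoType (A i) (K i) ∧
      finrank ℚ (K i) = 1), fun i => by simp⟩
  have hST : ∀ i, i ∈ S ∨ i ∈ U ∪ G ∨ i ∈ T := fun i => by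
    rw [hS, Finset.mem_union, hU, hT, hG]
    rcases hK i with h | h | h | h
    · exact Or.inl h
    · exact Or.inr (Or.inl (Or.inl h))
    · exact Or.inr (Or.inr h)
    · exact Or.inr (Or.inl (Or.inr h))
  have hUG : ∀ i ∈ U ∪ G, IsRelTwoType (A i) (K i) := by
    intro i hi
    rcases Finset.mem_union.mp hi with h | h
    · exact ((hU i).mp h).type
    · exact ((hG i).mp h).2.1
  have hc := relTwoCond hΦ hg hfac hA hn K S U (fun i hi => (hS i).mp hi)
    (fun i hi => (hU i).mp hi)
  have hcG : CondG A n K S (U ∪ G) G := by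
    refine ⟨fun i j _ _ _ _ hij => hA i j hij, Finset.subset_union_right,
      fun i hi => ((hG i).mp hi).1, fun i hi => ((hG i).mp hi).2.2, fun i hi hi' => ?_,
      fun i hi hi' => ?_⟩
    · exact hc.mult i ((Finset.mem_union.mp hi).resolve_right hi')
    · exact hc.link i ((Finset.mem_union.mp hi).resolve_right hi')
  have hα' := grothendieck_transfer hΦ α hα
  refine inFil_of_hodge hΦ α ?_
  obtain ⟨F, hF⟩ := exists_sys A K S (U ∪ G) T hST (fun i hi => (hS i).mp hi) hUG
    (fun i hi => (hT i).mp hi)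
  have hact := hAct hKT I A n K S (U ∪ G) G (fun i hi => (hS i).mp hi) hUG hcG F hF k _ hα'
  -- the centres
  choose L jF jN ρ0 hρ0 using fun i => hCen (A i) (hs i) (hg i)
  choose c ρ hρ hcen using fun i => hRos (A i) (L i) (ρ0 i) (hg i) (hρ0 i)
  refine hFamHK I A n L c ρ k _ (fun i => ⟨(hcen i).kr, (hcen i).cc⟩) hg ?_ hα'
    (Or.inr ⟨j, typ hΦ α htyp⟩)
  intro f hf v
  have hcomm : ∀ i h, (A i).IsEnd h → ∀ v, f i (h v) = h (f i v) := fun i h hh v =>
    (hf i).comm h hh (fun x v => (hcen i).cen x h hh v) v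
  refine kill A n K F (α.compLinearMap Φ.symm.toLinearMap) hact (f, 0) ⟨?_, ?_⟩ ?_ v
  · intro i j g hg' v
    by_cases hij : i = j
    · subst hij
      exact hcomm i g (isEnd_of_isDRB (A i) g hg') v
    · have h1 := (isDRB_iff (A i) (A j) g).mp hg'
      have h2 : (A i).IsMor (A j) g := isMor_of (A i) (A j) g.isLinear h1.1 h1.2
      have h3 := hA i j hij g h2
      show f j (g v) = g (f i v)
      rw [h3, h3, map_zero]
  · intro i u v
    show (pData (A i)).ψ (f i u) v + (pData (A i)).ψ u (f i v) = 0 * _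
    rw [zero_mul]
    exact (hf i).skew u v
  · intro t
    by_cases ht : (F t.1).isLeft
    · rw [chiC_left (fun i => pData (A i)) F (f, 0) t ht]
      simp
    · show (F t.1).chi t.2 (f t.1) 0 = 0
      have hend : ∀ x, (A t.1).IsEnd ((F t.1).ρ x) := fun x =>
        isEnd_of_isDRB (A t.1) _ ((F t.1).hρ x)
      refine chi_zero (F t.1) ht (f t.1) (fun x v => hcomm t.1 _ (hend x) v) (fun x => ?_) t.2
      -- the field is central
      have htT : t.1 ∈ T := by
        rcases hST t.1 with h1 | h1 | h1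
        · exact absurd ((hF.left t.1).mpr (Or.inl h1)) ht
        · exact absurd ((hF.left t.1).mpr (Or.inr h1)) ht
        · exact h1
      obtain ⟨ρ', hρ'⟩ := hasCM_of_isCMType ((hT t.1).mp htT)
      have hab : ∀ g h : (A t.1).H1 → (A t.1).H1, (A t.1).IsEnd g → (A t.1).IsEnd h →
          ∀ v, g (h v) = h (g v) := by
        intro g h hg' hh v
        obtain ⟨x, hx⟩ := cm_full hρ' (hs t.1) g hg'
        obtain ⟨y, hy⟩ := cm_full hρ' (hs t.1) h hh
        rw [hx, hy, hy, hx, ← hρ'.mul, ← hρ'.mul, mul_comm]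
      obtain ⟨y, hy⟩ := (hcen t.1).all ((F t.1).ρ x) (hend x) (fun g hg' v =>
        hab _ g (hend x) hg' v)
      have h5 : (F t.1).ρ x = ρ t.1 y := LinearMap.ext hy
      rw [h5]
      exact (hf t.1).trace y

end Pool.Agent.Helper7.LEF
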