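import Pool.Agent.WPP.TypesZ

/-!
Commutative algebras of endomorphisms which are stable under the Rosati involution, the derived algebra
of their Lefschetz Lie algebra, and their weights.
-/

namespace Pool.Agent.GPC

/-- The commutative `ℚ`-algebra `Z` acts faithfully on `H_1(X)` by `ρ` through endomorphisms of `X`
(tensor `ℚ`), and its image is stable under the Rosati involution. -/
structure AbVar.IsRosatiAct (X : AbVar) (Z : Type) [CommRing Z] (ρ : Z → X.H1 → X.H1) : Prop where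
  one : ∀ v, ρ 1 v = v
  mul : ∀ x y v, ρ (x * y) v = ρ x (ρ y v)
  add : ∀ x y v, ρ (x + y) v = ρ x v + ρ y v
  inj : ∀ x, (∀ v, ρ x v = 0) → x = 0
  endo : ∀ x, X.IsEnd (ρ x)
  adj : ∀ x, ∃ y, X.IsAdjoint (ρ x) (ρ y)

/-- The image of `Z` is the centre of `End(X) ⊗ ℚ`. -/
def AbVar.IsCentreAct (X : AbVar) (Z : Type) (ρ : Z → X.H1 → X.H1) : Prop :=
  ∀ f : X.H1 → X.H1, (∃ z, ρ z = f) ↔ X.IsEnd f ∧ ∀ h : X.H1 → X.H1, X.IsEnd h →
    ∀ v, h (f v) = f (h v)

/-- `f` is a linear map which is skew for the polarisation, commutes with the endomorphisms of `X`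
(tensor `ℚ`) which commute with `Z`, and satisfies `trace (f z) = 0` for `z` in `Z`. -/
structure AbVar.IsDerAct (X : AbVar) (Z : Type) (ρ : Z → X.H1 → X.H1)
    (f : X.H1 → X.H1) : Prop where
  linear : IsLinearMap ℂ f
  comm : ∀ h : X.H1 → X.H1, X.IsEnd h → (∀ z v, h (ρ z v) = ρ z (h v)) →
    ∀ v, f (h v) = h (f v)
  skew : ∀ u v, X.pol (f u) v + X.pol u (f v) = 0
  trace : ∀ z, ∑ s, f (ρ z (Pi.single s 1)) s = 0

/-- The class `α` is killed by all `f` as in `IsDerAct`. -/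
def AbVar.IsInvAct (X : AbVar) (Z : Type) (ρ : Z → X.H1 → X.H1) {m : ℕ}
    (α : X.Class m) : Prop :=
  ∀ f, X.IsDerAct Z ρ f → ∀ v : Fin m → X.H1, ∑ r, α (Function.update v r (f (v r))) = 0

/-- Every number field which is a quotient of the algebra `Z` is totally real or an abelian extension
of `ℚ`. -/
def HasAbelianQuotients (Z : Type) [CommRing Z] : Prop :=
  ∀ (K : Type) [Field K] [NumberField K] (φ : Z →+* K), Function.Surjective φ →
    NumberField.IsTotallyReal K ∨ IsAbelianGalois ℚ K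

/-- The dimension of the `σ`-eigenspace of the algebra `Z` in `F^0 H_1(X)`. -/
noncomputable def AbVar.dimFilAct (X : AbVar) {Z : Type} [CommRing Z] (ρ : Z → X.H1 → X.H1)
    (σ : Z →+* ℂ) : ℕ :=
  Module.finrank ℂ (Submodule.span ℂ {v : X.H1 | (∀ z, ρ z v = σ z • v) ∧ X.IsFil v})

/-- The weight at the automorphism `g` of `ℂ` of the rational function `f` on the homomorphisms of
`Z` into `ℂ`: the sum of the `f (g σ) dim V_σ`, where `V_σ` is the `σ`-eigenspace in `F^0 H_1(X)`. -/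
noncomputable def AbVar.weightAct (X : AbVar) {Z : Type} [CommRing Z] (ρ : Z → X.H1 → X.H1)
    (f : (Z →+* ℂ) → ℚ) (g : ℂ ≃+* ℂ) : ℚ :=
  ∑ᶠ σ : Z →+* ℂ, f ((g : ℂ →+* ℂ).comp σ) * X.dimFilAct ρ σ

/-- Let `V` be a vector space over `ℚ` of odd functions on the homomorphisms of `Z` into `ℂ`, i.e.
`f (conj σ) = - f σ`, stable under the automorphisms of `ℂ`, and suppose that the weight at `1` of
some member of `V` is not zero. Then this is true for some member of `V` all of whose weights are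
`0`, `N` or `- N`, for one `N`. -/
def AbVar.HasThreeWeightsAct (X : AbVar) (Z : Type) [CommRing Z] (ρ : Z → X.H1 → X.H1) : Prop :=
  ∀ V : Submodule ℚ ((Z →+* ℂ) → ℚ),
    (∀ f ∈ V, ∀ σ, f ((starRingEnd ℂ).comp σ) = - f σ) →
    (∀ f ∈ V, ∀ g : ℂ ≃+* ℂ, (fun σ => f ((g : ℂ →+* ℂ).comp σ)) ∈ V) →
    (∃ f ∈ V, X.weightAct ρ f 1 ≠ 0) →
    ∃ f ∈ V, X.weightAct ρ f 1 ≠ 0 ∧ ∃ N : ℚ, ∀ g : ℂ ≃+* ℂ,
      X.weightAct ρ f g = 0 ∨ X.weightAct ρ f g = N ∨ X.weightAct ρ f g = - N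

end Pool.Agent.GPC
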